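import Pool.Agent.helper66.SL.SpecA

/-!
# MP_ad2b66_co, row sl:CRK: the corank is well defined
-/

set_option autoImplicit false

namespace Pool.Agent.helper66.SL

open Pool.Agent.helper52.FC

namespace CRKh

variable {E : Type}

theorem le_antisymm' {X Y : E → SignType} (h : Le X Y) (h' : Le Y X) : X = Y := by
  funext g
  rcases h g with h1 | h1
  · rcases h' g with h2 | h2
    · rw [h1, h2]
    · exact h2.symm
  · exact h1

theorem fz_fl (S : E → SignType) (e : E) : fz (fl S e) e = fz S e := by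
  funext g
  by_cases h : g = e
  · subst h; rw [fz_same, fz_same]
  · rw [fz_ne _ h, fz_ne _ h, fl_ne _ h]

theorem le_of_fz {Y S : E → SignType} {e : E} (h : Le Y (fz S e)) : Y e = 0 ∧ Le Y S := by
  have h0 : Y e = 0 := by
    rcases h e with h1 | h1
    · exact h1
    · rw [h1, fz_same]
  refine ⟨h0, fun g => ?_⟩
  by_cases hg : g = e
  · subst hg; exact Or.inl h0
  · rcases h g with h1 | h1
    · exact Or.inl h1
    · right; rw [h1, fz_ne _ hg]

theorem to_fz {Y S : E → SignType} {e : E} (h0 : Y e = 0) (h : Le Y S) : Le Y (fz S e) := by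
  intro g
  by_cases hg : g = e
  · subst hg; exact Or.inl h0
  · rcases h g with h1 | h1
    · exact Or.inl h1
    · right; rw [h1, fz_ne _ hg]

theorem count (hBIJ : BIJ) [Finite E] {L : Set (E → SignType)} (hG : Good L) {X : E → SignType}
    (hX : X ∈ L) {S : E → SignType} (hS : IsTope L S) (hXS : Le X S) {e : E} (he : Wall L S e)
    (hXe : X e = 0) :
    {Y | Y ∈ L ∧ Le X Y ∧ Le Y (fz S e)}.ncard = 2 ^ ({g | Wall L S g ∧ X g = 0} \ {e}).ncard := by
  obtain ⟨B1, B2⟩ := hBIJ E L hG S hS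
  rw [← Set.ncard_powerset]
  refine Set.ncard_congr (fun Y _ => {g | Wall L S g ∧ Y g = 0 ∧ g ≠ e}) ?_ ?_ ?_
  · rintro Y ⟨hY, hXY, hYF⟩ g ⟨h1, h2, h3⟩
    refine ⟨⟨h1, ?_⟩, h3⟩
    rcases hXY g with h4 | h4
    · exact h4
    · rw [h4, h2]
  · rintro Y Z ⟨hY, hXY, hYF⟩ ⟨hZ, hXZ, hZF⟩ hYZ
    obtain ⟨hY0, hYS⟩ := le_of_fz hYF
    obtain ⟨hZ0, hZS⟩ := le_of_fz hZF
    have key : ∀ g, Wall L S g → (Y g = 0 ↔ Z g = 0) := by
      intro g hg
      by_cases hge : g = e
      · subst hge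
        exact ⟨fun _ => hZ0, fun _ => hY0⟩
      · have h1 := Set.ext_iff.1 hYZ g
        constructor
        · intro h2
          exact (h1.1 ⟨hg, h2, hge⟩).2.1
        · intro h2
          exact (h1.2 ⟨hg, h2, hge⟩).2.1
    exact le_antisymm' (B2 Y hY Z hZ hYS hZS fun g hg h => (key g hg).2 h)
      (B2 Z hZ Y hY hZS hYS fun g hg h => (key g hg).1 h)
  · intro K hK
    have hK' : ∀ g ∈ K, (Wall L S g ∧ X g = 0) ∧ g ≠ e := fun g hg => hK hg
    obtain ⟨Y, hY, hYS, hYK⟩ := B1 (insert e K) (by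
      intro g hg
      rcases hg with hg | hg
      · rw [hg]; exact he
      · exact (hK' g hg).1.1)
    have hY0 : Y e = 0 := (hYK e he).2 (Set.mem_insert e K)
    refine ⟨Y, ⟨hY, B2 X hX Y hY hXS hYS ?_, to_fz hY0 hYS⟩, ?_⟩
    · intro g hg h
      rcases (hYK g hg).1 h with h1 | h1
      · rw [h1]; exact hXe
      · exact (hK' g h1).1.2
    · ext g
      constructor
      · rintro ⟨h1, h2, h3⟩
        rcases (hYK g h1).1 h2 with h4 | h4
        · exact absurd h4 h3
        · exact h4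
      · intro hg
        obtain ⟨⟨h1, _⟩, h3⟩ := hK' g hg
        exact ⟨h1, (hYK g h1).2 (Set.mem_insert_of_mem e hg), h3⟩

theorem step (hBIJ : BIJ) [Finite E] {L : Set (E → SignType)} (hG : Good L) {X : E → SignType}
    (hX : X ∈ L) {S : E → SignType} (hS : IsTope L S) (hXS : Le X S) {e : E} (he : Wall L S e)
    (hXe : X e = 0) :
    {g | Wall L (fl S e) g ∧ X g = 0}.ncard = {g | Wall L S g ∧ X g = 0}.ncard := by
  have hS' : IsTope L (fl S e) := he
  have hXS' : Le X (fl S e) := by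
    intro g
    by_cases hg : g = e
    · subst hg; exact Or.inl hXe
    · rw [fl_ne _ hg]; exact hXS g
  have he' : Wall L (fl S e) e := by
    unfold Wall
    rw [fl_fl]
    exact hS
  have h1 := count hBIJ hG hX hS hXS he hXe
  have h2 := count hBIJ hG hX hS' hXS' he' hXe
  rw [fz_fl, h1] at h2
  have h3 := Nat.pow_right_injective (le_refl 2) h2
  have h4 := Set.ncard_diff_singleton_add_one (s := {g | Wall L S g ∧ X g = 0}) (a := e) ⟨he, hXe⟩
    (Set.toFinite _)
  have h5 := Set.ncard_diff_singleton_add_one (s := {g | Wall L (fl S e) g ∧ X g = 0}) (a := e)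
    ⟨he', hXe⟩ (Set.toFinite _)
  rw [← h4, ← h5, h3]

end CRKh

open CRKh

theorem CRK_proof (hWFZ : WFZ) (hSTI : STI) (hBIJ : BIJ) : CRK := by
  intro E _ L hG X hX T hT hXT
  refine ⟨hX, fun R hR hXR => ?_⟩
  refine hSTI E L hG.om hG.simple X hX
    (fun R => {e | Wall L R e ∧ X e = 0}.ncard = {e | Wall L T e ∧ X e = 0}.ncard) T hT hXT rfl ?_
    R hR hXR
  intro S hS hXS hQ e he hXe
  have := step hBIJ hG hX hS hXS he hXe
  show {g | Wall L (fl S e) g ∧ X g = 0}.ncard = _
  rw [this]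
  exact hQ

end Pool.Agent.helper66.SL
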