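import Pool.Agent.helper66.SL.SpecK

/-!
# MP_ad2b66_co, row slk:KST: stars are faces
-/

set_option autoImplicit false

namespace Pool.Agent.helper66.SL

open Pool.Agent.helper52.FC

namespace KSTh

variable {E : Type}

theorem neg_ne {a : SignType} (h : a ≠ 0) : -a ≠ 0 := by
  intro h1
  apply h
  have := congrArg (fun x => -x) h1
  simpa using this

/-- The distance drops. -/
theorem dist_lt [Finite E] {B T : E → SignType} {e : E} (hB : B e ≠ 0) (hT : T e ≠ 0)
    (h : T e ≠ B e) : dist B (fl T e) < dist B T := by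
  unfold dist
  refine Set.ncard_lt_ncard ?_ (Set.toFinite _)
  refine ⟨fun g hg => ?_, fun hsub => ?_⟩
  · by_cases hge : g = e
    · rw [hge]
      exact h.symm
    · have hg' : B g ≠ fl T e g := hg
      rw [fl_ne _ hge] at hg'
      exact hg'
  · have h1 : e ∈ {g | B g ≠ fl T e g} := hsub (show B e ≠ T e from h.symm)
    apply h1
    rw [fl_same]
    exact sne hB hT h.symm

end KSTh

open KSTh

theorem KST_proof (hSTI : STI) (hCRK : CRK) (hKF1 : KF1) (hKF4 : KF4) (hKSR : KSR) : KST := by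
  intro E _ L r P φ hKS X hX
  have hG := hKS.good
  have hne : ∀ T, IsTope L T → ∀ g, T g ≠ 0 := fun T hT => tope_supp hG.om hG.simple hT
  obtain ⟨T0, hT0⟩ := exists_tope hG.om
  obtain ⟨B, hBdef⟩ : ∃ B, B = cmp (fun e => -X e) T0 := ⟨_, rfl⟩
  have hB0 : ∀ g, X g ≠ 0 → B g = -X g := by
    intro g hg
    rw [hBdef]
    exact cmp_neg (X := fun e => -X e) (neg_ne hg)
  have hB1 : ∀ g, X g = 0 → B g = T0 g := by
    intro g hg
    rw [hBdef]
    exact cmp_pos (by show -X g = 0; rw [hg]; rfl)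
  have hBL : B ∈ L := by
    rw [hBdef]
    exact hG.om.comp _ (hG.om.neg X hX) _ hT0.1
  have hBne : ∀ g, B g ≠ 0 := by
    intro g
    by_cases hg : X g = 0
    · rw [hB1 g hg]; exact hne T0 hT0 g
    · rw [hB0 g hg]; exact neg_ne hg
  have hB : IsTope L B := tope_of hBL hBne
  obtain ⟨Ts, hTs⟩ : ∃ Ts, Ts = cmp X B := ⟨_, rfl⟩
  have hTs0 : ∀ g, X g = 0 → Ts g = B g := fun g hg => by rw [hTs, cmp_pos hg]
  have hXTs : Le X Ts := by rw [hTs]; exact le_cmp X B
  have hTsT : IsTope L Ts := by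
    refine tope_of (by rw [hTs]; exact hG.om.comp X hX B hBL) fun g => ?_
    by_cases hg : X g = 0
    · rw [hTs0 g hg]; exact hBne g
    · rcases hXTs g with h1 | h1
      · exact absurd h1 hg
      · rw [← h1]; exact hg
  obtain ⟨F, hF, hTF, hK⟩ := hKF1 E L r P φ hKS Ts hTsT {e | Wall L Ts e ∧ X e = 0}
    (fun e he => he.1)
  have hsrc : ∀ e, Wall L Ts e → vp φ (fl Ts e) ∈ F → Ts e = B e := by
    intro e he h
    exact hTs0 e ((hK e he).1 h).2
  have hle : ∀ n : ℕ, ∀ T, IsTope L T → dist B T < n → vp φ T ∈ F → Le X T := by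
    intro n
    induction n with
    | zero => intro T _ h; exact absurd h (Nat.not_lt_zero _)
    | succ n ih =>
      intro T hT hd hTF'
      by_cases hTT : T = Ts
      · rw [hTT]; exact hXTs
      have h1 : ¬ ∀ e, Wall L T e → vp φ (fl T e) ∈ F → T e = B e := by
        intro h2
        exact hTT ((hKSR E L r P φ hKS).2.2 B hB F hF T Ts hT hTsT hTF' hTF h2 hsrc)
      push Not at h1
      obtain ⟨e, he, heF, heB⟩ := h1
      have h3 := dist_lt (hBne e) (hne T hT e) heB
      have h4 : Le X (fl T e) := ih (fl T e) he (by omega) heF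
      have h5 : X e = 0 := by
        by_contra h6
        apply heB
        rw [hB0 e h6]
        rcases h4 e with h7 | h7
        · exact absurd h7 h6
        · rw [h7, fl_same, neg_neg]
      intro g
      by_cases hg : g = e
      · left; rw [hg]; exact h5
      · have h8 := h4 g
        rw [fl_ne _ hg] at h8
        exact h8
  have hle' : ∀ T, IsTope L T → vp φ T ∈ F → Le X T := fun T hT h =>
    hle (dist B T + 1) T hT (Nat.lt_succ_self _) h
  refine ⟨F, hF, fun T hT => ⟨hle' T hT, fun hXT => ?_⟩⟩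
  refine hSTI E L hG.om hG.simple X hX (fun S => vp φ S ∈ F) Ts hTsT hXTs hTF ?_ T hT hXT
  intro S hS hXS hSF e he hXe
  have c1 := (hCRK E L hG X hX Ts hTsT hXTs).2 S hS hXS
  have c2 := hKF4 E L r P φ hKS F hF S Ts hS hTsT hSF hTF
  have c3 : {e | Wall L Ts e ∧ vp φ (fl Ts e) ∈ F} = {e | Wall L Ts e ∧ X e = 0} := by
    ext g
    constructor
    · rintro ⟨h1, h2⟩
      exact ⟨h1, ((hK g h1).1 h2).2⟩
    · rintro ⟨h1, h2⟩
      exact ⟨h1, (hK g h1).2 ⟨h1, h2⟩⟩
  rw [c3, ← c1] at c2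
  have c4 : {e | Wall L S e ∧ vp φ (fl S e) ∈ F} ⊆ {e | Wall L S e ∧ X e = 0} := by
    rintro g ⟨h1, h2⟩
    refine ⟨h1, ?_⟩
    have h3 := hle' (fl S g) h1 h2
    rcases hXS g with h4 | h4
    · exact h4
    rcases h3 g with h5 | h5
    · exact h5
    rw [fl_same] at h5
    exfalso
    apply hne S hS g
    exact sneg (h4.symm.trans h5) rfl
  have c5 := Set.eq_of_subset_of_ncard_le c4 (le_of_eq c2.symm) (Set.toFinite _)
  have c6 : e ∈ {e | Wall L S e ∧ vp φ (fl S e) ∈ F} := by
    rw [c5]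
    exact ⟨he, hXe⟩
  exact c6.2

end Pool.Agent.helper66.SL
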