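import Pool.Agent.helper66.SL.SpecA

/-!
# MP_ad2b66_co, row sl:PAT: the walls around a triple covector
-/

set_option autoImplicit false

namespace Pool.Agent.helper66.SL

open Pool.Agent.helper52.FC

theorem PAT_proof : PAT := by
  intro E _ L hG Z hZ a b c hab hca hcb hZa hZb hZc hcov T hT hZT hTa hTb
  have hc : ¬ Wall L T c := by
    intro hTc
    have h1 := hZ.2 T hT hZT
    have h2 : ({a, b, c} : Set E) ⊆ {e | Wall L T e ∧ Z e = 0} := by
      intro g hg
      rcases hg with hg | hg | hg
      · rw [hg]; exact ⟨hTa, hZa⟩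
      · rw [hg]; exact ⟨hTb, hZb⟩
      · rw [Set.mem_singleton_iff.1 hg]; exact ⟨hTc, hZc⟩
    have h3 := Set.ncard_le_ncard h2 (Set.toFinite _)
    have h4 : ({a, b, c} : Set E).ncard = 3 :=
      Set.ncard_eq_three.2 ⟨a, b, c, hab, hca.symm, hcb.symm, rfl⟩
    omega
  have hb : ¬ Wall L (fl T a) b := by
    intro hR
    apply hc
    have hR' : IsTope L (fl (fl T a) b) := hR
    have hne : ∀ g, T g ≠ 0 := tope_supp hG.om hG.simple hT
    have h1 : cmp Z (fun g => -(fl (fl T a) b) g) = fl T c := by
      funext g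
      by_cases hg : Z g = 0
      · rw [cmp_pos hg]
        rcases hcov g hg with h | h | h
        · subst h
          rw [fl_ne _ hab, fl_same, fl_ne _ hca.symm, neg_neg]
        · subst h
          rw [fl_same, fl_ne _ hab.symm, fl_ne _ hcb.symm, neg_neg]
        · subst h
          rw [fl_ne _ hcb, fl_ne _ hca, fl_same]
      · rw [cmp_neg hg]
        have h2 : g ≠ c := by
          rintro rfl
          exact hg hZc
        rw [fl_ne _ h2]
        rcases hZT g with h3 | h3
        · exact absurd h3 hg
        · exact h3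
    have h2 : fl T c ∈ L := by
      rw [← h1]
      exact hG.om.comp Z hZ.1 _ (hG.om.neg _ hR'.1)
    refine tope_of h2 fun g => ?_
    by_cases hg : g = c
    · rw [hg, fl_same]
      intro h3
      apply hne c
      have := congrArg (fun x => -x) h3
      simpa using this
    · rw [fl_ne _ hg]
      exact hne g
  refine ⟨hc, ?_, hb⟩
  by_contra hcc
  have hZS : Le Z (fl T a) := by
    intro g
    by_cases hg : g = a
    · left; rw [hg]; exact hZa
    · rw [fl_ne _ hg]; exact hZT g
  have h1 := hZ.2 (fl T a) hTa hZS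
  have h2 : {e | Wall L (fl T a) e ∧ Z e = 0} ⊆ ({a} : Set E) := by
    rintro g ⟨hg1, hg2⟩
    rcases hcov g hg2 with h | h | h
    · exact h
    · exact absurd (h ▸ hg1) hb
    · exact absurd (h ▸ hg1) hcc
  have h3 := Set.ncard_le_ncard h2 (Set.toFinite _)
  rw [Set.ncard_singleton] at h3
  omega

end Pool.Agent.helper66.SL
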